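import Mathlib

namespace Pool.Agent.Results.MP_b215e8_pr.No

open MeasureTheory ProbabilityTheory Set Filter
open scoped ENNReal

section defs
variable {S : Type} [MetricSpace S]

/-- Arrival time of seed `i` (counted from `0`): the sum of the inter-arrival times. -/
def arrival (ω : ℕ → ℝ × S) (i : ℕ) : ℝ := ∑ j ∈ Finset.range (i + 1), (ω j).1

/-- The cover time: first `t ≥ 0` at which the growing balls cover `S`. -/
noncomputable def coverTime (v : ℝ) (ω : ℕ → ℝ × S) : ℝ :=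
  sInf {t | 0 ≤ t ∧ ∀ s : S, ∃ i, arrival ω i ≤ t ∧ dist (ω i).2 s ≤ v * (t - arrival ω i)}

/-- Mean cover time: inter-arrival times i.i.d. exponential of rate `lam`, seeds i.i.d. `μ`,
all independent. -/
noncomputable def meanCover [MeasurableSpace S] (μ : Measure S) (lam v : ℝ) : ℝ≥0∞ :=
  ∫⁻ ω, ENNReal.ofReal (coverTime v ω) ∂(Measure.infinitePi fun _ : ℕ => (expMeasure lam).prod μ)

end defs

def G : Type := ZMod 10

instance : AddCommGroup G := inferInstanceAs (AddCommGroup (ZMod 10))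
instance : Fintype G := inferInstanceAs (Fintype (ZMod 10))
instance : DecidableEq G := inferInstanceAs (DecidableEq (ZMod 10))
instance : MeasurableSpace G := ⊤
instance : DiscreteMeasurableSpace G := ⟨fun _ => trivial⟩

def dN (x y : ZMod 10) : ℕ :=
  if x = y then 0 else if (x - y).val ≤ 2 ∨ 8 ≤ (x - y).val then 1 else 2

def five : G := (5 : ZMod 10)

lemma d1 : ∀ x y : ZMod 10, dN x y = dN y x := by decide
lemma d2 : ∀ x y z : ZMod 10, dN x z ≤ dN x y + dN y z := by decide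
lemma d3 : ∀ x y : ZMod 10, dN x y = 0 ↔ x = y := by decide
lemma d4 : ∀ g x y : ZMod 10, dN (g + x) (g + y) = dN x y := by decide
lemma d5 : ∀ x y : ZMod 10, dN x y ≤ 2 := by decide
lemma d6 : ∀ x s : ZMod 10, dN x s ≤ 1 ∨ dN (x + 5) s ≤ 1 := by decide
lemma d7 : ∀ x y : ZMod 10, dN x (x + 3) = 2 ∧ dN x (x + 7) = 2 ∧
    (dN y (x + 3) < 2 → dN y (x + 7) < 2 → y = x + 5 ∧ dN y (x + 3) = 1) := by decide

noncomputable instance : MetricSpace G where
  dist x y := dN x y
  dist_self x := by exact_mod_cast (d3 x x).2 rfl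
  dist_comm x y := by exact_mod_cast d1 x y
  dist_triangle x y z := by exact_mod_cast d2 x y z
  eq_of_dist_eq_zero {x y} h := (d3 x y).1 (by exact_mod_cast h)

lemma dist_eq (x y : G) : dist x y = dN x y := rfl

lemma arr0 (ω : ℕ → ℝ × G) : arrival ω 0 = (ω 0).1 := by simp [arrival]
lemma arr1 (ω : ℕ → ℝ × G) : arrival ω 1 = (ω 0).1 + (ω 1).1 := by
  simp [arrival, Finset.sum_range_succ]

lemma bdd (v : ℝ) (ω : ℕ → ℝ × G) : BddBelow
    {t | 0 ≤ t ∧ ∀ s : G, ∃ i, arrival ω i ≤ t ∧ dist (ω i).2 s ≤ v * (t - arrival ω i)} :=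
  ⟨0, fun _ h => h.1⟩

lemma mem0 {ω : ℕ → ℝ × G} (h : ∀ i, 0 ≤ (ω i).1) : (ω 0).1 + 1 / 200 ∈
    {t | 0 ≤ t ∧ ∀ s : G, ∃ i, arrival ω i ≤ t ∧ dist (ω i).2 s ≤ 400 * (t - arrival ω i)} := by
  refine ⟨by linarith [h 0], fun s => ⟨0, by rw [arr0]; linarith, ?_⟩⟩
  have : (dN (ω 0).2 s : ℝ) ≤ 2 := by exact_mod_cast d5 _ _
  rw [arr0, dist_eq]; linarith

def E (c : ℝ) : Set (ℕ → ℝ × G) := {ω | (ω 1).1 ≤ c ∧ (ω 1).2 = (ω 0).2 + five}
def B : Set (ℕ → ℝ × G) := {ω | (ω 1).1 ≤ 1 / 200 ∧ (ω 2).1 ≤ 1 / 200}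

lemma upper {ω : ℕ → ℝ × G} (h : ∀ i, 0 ≤ (ω i).1) :
    coverTime 400 ω + (E (1 / 800)).indicator (fun _ => (1 / 800 : ℝ)) ω ≤ (ω 0).1 + 1 / 200 := by
  by_cases hE : ω ∈ E (1 / 800)
  · rw [indicator_of_mem hE, ← le_sub_iff_add_le]
    have h0 := h 0
    have h1 := h 1
    refine csInf_le (bdd _ _) ⟨by linarith, fun s => ?_⟩
    rcases d6 (ω 0).2 s with h2 | h2
    · have : (dN (ω 0).2 s : ℝ) ≤ 1 := by exact_mod_cast h2
      exact ⟨0, by rw [arr0]; linarith, by rw [arr0, dist_eq]; linarith⟩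
    · have : (dN (ω 1).2 s : ℝ) ≤ 1 := by rw [hE.2]; exact_mod_cast h2
      have := hE.1
      exact ⟨1, by rw [arr1]; linarith, by rw [arr1, dist_eq]; linarith⟩
  · rw [indicator_of_notMem hE, add_zero]
    exact csInf_le (bdd _ _) (mem0 h)

lemma lower {ω : ℕ → ℝ × G} (h : ∀ i, 0 ≤ (ω i).1) :
    (ω 0).1 + 1 / 200 ≤ coverTime 400 ω + (E (1 / 400)).indicator (fun _ => (1 / 400 : ℝ)) ω +
      B.indicator (fun _ => (1 / 200 : ℝ)) ω := by
  rw [add_assoc, ← sub_le_iff_le_add]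
  refine le_csInf ⟨_, mem0 h⟩ fun t ⟨_, ht⟩ => ?_
  have mono : ∀ {i j}, i ≤ j → arrival ω i ≤ arrival ω j := fun hij =>
    Finset.sum_le_sum_of_subset_of_nonneg (Finset.range_mono (by omega)) fun _ _ _ => h _
  have i1 : 0 ≤ (E (1 / 400)).indicator (fun _ => (1 / 400 : ℝ)) ω :=
    indicator_nonneg (fun _ _ => by norm_num) _
  have h0 : (ω 0).1 ≤ t := by
    obtain ⟨i, hi, -⟩ := ht 0
    exact (arr0 ω ▸ mono i.zero_le).trans hi
  by_cases hB : ω ∈ B
  · rw [indicator_of_mem hB]; linarith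
  rw [indicator_of_notMem hB, add_zero]
  by_contra hc
  have h2 : (ω 0).1 + 1 / 200 < arrival ω 2 := by
    simp only [B, mem_setOf_eq, not_and_or, not_le] at hB
    simp only [arrival, Finset.sum_range_succ, Finset.range_zero, Finset.sum_empty]
    rcases hB with hB | hB <;> linarith [h 1, h 2]
  have key : ∀ s : G, dN (ω 0).2 s = 2 → dN (ω 1).2 s < 2 ∧
      (dN (ω 1).2 s : ℝ) ≤ 400 * (t - arrival ω 1) := fun s hs => by
    obtain ⟨i, hi, hd⟩ := ht s
    rcases i with _ | _ | i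
    · rw [dist_eq, hs, arr0] at hd; push_cast at hd; linarith
    · refine ⟨?_, hd⟩
      have : (dN (ω 1).2 s : ℝ) < 2 := by
        have := h 1
        rw [dist_eq, zero_add, arr1] at hd; linarith
      exact_mod_cast this
    · linarith [mono (show 2 ≤ i + 1 + 1 by omega)]
  obtain ⟨a, b, c⟩ := d7 (ω 0).2 (ω 1).2
  obtain ⟨c1, c2⟩ := c (key _ a).1 (key _ b).1
  have h3 := (key _ a).2
  rw [c2, arr1] at h3
  push_cast at h3
  rw [indicator_of_mem (show ω ∈ E (1 / 400) from ⟨by linarith, c1⟩)] at hc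
  linarith [h 1]

instance : IsProbabilityMeasure (expMeasure 1) := isProbabilityMeasure_expMeasure one_pos

lemma exp_Iic {c : ℝ} (hc : 0 ≤ c) : expMeasure 1 (Iic c) = ENNReal.ofReal (1 - Real.exp (-c)) := by
  rw [← ofReal_cdf, cdf_expMeasure_eq one_pos, if_pos hc, one_mul]

noncomputable def P (ν : Measure G) : Measure (ℕ → ℝ × G) :=
  Measure.infinitePi fun _ : ℕ => (expMeasure 1).prod ν

section
variable (ν : Measure G) [IsProbabilityMeasure ν]

instance : IsProbabilityMeasure (P ν) := by unfold P; infer_instance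

lemma mp (i : ℕ) : MeasurePreserving (fun ω : ℕ → ℝ × G => (ω i).1) (P ν) (expMeasure 1) :=
  measurePreserving_fst.comp (measurePreserving_eval_infinitePi _ i)

lemma ae_nn : ∀ᵐ ω ∂(P ν), ∀ i, 0 ≤ (ω i).1 := by
  refine ae_all_iff.2 fun i => (mp ν i).quasiMeasurePreserving.ae (p := (0 ≤ ·)) ?_
  refine measure_mono_null (t := Iic 0) (fun x hx => (not_le.1 (show ¬ (0 : ℝ) ≤ x from hx)).le) ?_
  rw [exp_Iic le_rfl]; simp

lemma pair {i j : ℕ} (h : i ≠ j) {s : Set ((ℝ × G) × (ℝ × G))} (hs : MeasurableSet s) :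
    P ν ((fun ω => (ω i, ω j)) ⁻¹' s) =
      (((expMeasure 1).prod ν).prod ((expMeasure 1).prod ν)) s := by
  rw [← Measure.map_apply (by fun_prop) hs, P, Measure.infinitePi_map_eval_prod h]

lemma mE (c : ℝ) : MeasurableSet (E c) := by
  rw [E, setOf_and]
  exact (measurableSet_le (by fun_prop) measurable_const).inter
    (measurableSet_eq_fun (by fun_prop) (by fun_prop))

lemma mB : MeasurableSet B := by
  rw [B, setOf_and]
  exact (measurableSet_le (by fun_prop) measurable_const).inter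
    (measurableSet_le (by fun_prop) measurable_const)

lemma PE (c : ℝ) : P ν (E c) = expMeasure 1 (Iic c) * ∑ x, ν {x + five} * ν {x} := by
  have hs : MeasurableSet {q : (ℝ × G) × (ℝ × G) | q.2.1 ≤ c ∧ q.2.2 = q.1.2 + five} := by
    rw [setOf_and]
    exact (measurableSet_le (by fun_prop) measurable_const).inter
      (measurableSet_eq_fun (by fun_prop) (by fun_prop))
  refine (pair ν zero_ne_one hs).trans ?_
  rw [Measure.prod_apply hs, ← lintegral_fintype, ← lintegral_const_mul _ .of_discrete,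
    ← (measurePreserving_snd (μ := expMeasure 1) (ν := ν)).lintegral_comp .of_discrete]
  exact lintegral_congr fun p => Measure.prod_prod (Iic c) {p.2 + five}

lemma PB : P ν B = expMeasure 1 (Iic (1 / 200)) * expMeasure 1 (Iic (1 / 200)) := by
  have := pair ν (i := 1) (j := 2) (by norm_num) (s := (Iic (1 / 200) ×ˢ univ) ×ˢ
    (Iic (1 / 200) ×ˢ univ)) ((measurableSet_Iic.prod .univ).prod (measurableSet_Iic.prod .univ))
  simp only [Measure.prod_prod, measure_univ, mul_one] at this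
  rw [← this]; congr 1; ext ω; simp [B]

noncomputable def F : ℝ≥0∞ := ∫⁻ x, ENNReal.ofReal (x + 1 / 200) ∂(expMeasure 1)

lemma PF : ∫⁻ ω, ENNReal.ofReal ((ω 0).1 + 1 / 200) ∂(P ν) = F :=
  (mp ν 0).lintegral_comp (f := fun x => ENNReal.ofReal (x + 1 / 200)) (by fun_prop)

lemma ind (s : Set (ℕ → ℝ × G)) (c : ℝ) (ω : ℕ → ℝ × G) :
    ENNReal.ofReal (s.indicator (fun _ => c) ω) = s.indicator (fun _ => ENNReal.ofReal c) ω := by
  by_cases h : ω ∈ s <;> simp [h]

lemma up : meanCover ν 1 400 + ENNReal.ofReal (1 / 800) * P ν (E (1 / 800)) ≤ F := by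
  rw [← PF ν, ← lintegral_indicator_const (mE _), meanCover, ← P,
    ← lintegral_add_right _ (measurable_const.indicator (mE _))]
  refine lintegral_mono_ae ((ae_nn ν).mono fun ω h => ?_)
  rw [← ind, ← ENNReal.ofReal_add (p := coverTime 400 ω) (Real.sInf_nonneg fun _ h => h.1)
    (indicator_nonneg (fun _ _ => by norm_num) _)]
  exact ENNReal.ofReal_le_ofReal (upper h)

lemma lo : F ≤ meanCover ν 1 400 + ENNReal.ofReal (1 / 400) * P ν (E (1 / 400)) +
    ENNReal.ofReal (1 / 200) * P ν B := by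
  rw [← PF ν, ← lintegral_indicator_const (mE _), ← lintegral_indicator_const mB, meanCover, ← P,
    ← lintegral_add_right _ (measurable_const.indicator (mE _)),
    ← lintegral_add_right _ (measurable_const.indicator mB)]
  refine lintegral_mono_ae ((ae_nn ν).mono fun ω h => ?_)
  rw [← ind, ← ind]
  exact (ENNReal.ofReal_le_ofReal (lower h)).trans
    (ENNReal.ofReal_add_le.trans (add_le_add_left ENNReal.ofReal_add_le _))

end

lemma F_ne : F ≠ ⊤ := by
  have h : ∫⁻ x, ENNReal.ofReal x ∂(expMeasure 1) < ⊤ := by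
    have h0 : 0 ≤ᵐ[expMeasure 1] fun x : ℝ => x :=
      measure_mono_null (t := Iic 0) (fun x hx => (not_le.1 (show ¬ (0 : ℝ) ≤ x from hx)).le)
        (by rw [exp_Iic le_rfl]; simp)
    rw [lintegral_eq_lintegral_meas_lt _ h0 aemeasurable_id']
    refine lt_of_eq_of_lt (setLIntegral_congr_fun measurableSet_Ioi fun t ht => ?_)
      (integrableOn_exp_neg_Ioi 0).lintegral_lt_top
    change expMeasure 1 (Ioi t) = _
    rw [← compl_Iic, prob_compl_eq_one_sub measurableSet_Iic, exp_Iic (le_of_lt ht),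
      ← ENNReal.ofReal_one, ← ENNReal.ofReal_sub _ (by simpa using le_of_lt ht), sub_sub_cancel]
  refine ne_top_of_le_ne_top ?_ (lintegral_mono fun x => ENNReal.ofReal_add_le)
  rw [lintegral_add_right _ measurable_const]
  simp [h.ne]

noncomputable def m0 : Measure G := (10 : ℝ≥0∞)⁻¹ • Measure.count
noncomputable def μ0 : Measure G := (2 : ℝ≥0∞)⁻¹ • (Measure.dirac 0 + Measure.dirac five)

lemma cardG : Fintype.card G = 10 := ZMod.card 10

instance : IsProbabilityMeasure m0 := ⟨by simp [m0, cardG, ENNReal.inv_mul_cancel]⟩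
instance : IsProbabilityMeasure μ0 := ⟨by simp [μ0, mul_add, ENNReal.inv_two_add_inv_two]⟩

lemma sum_m : ∑ x, m0 {x + five} * m0 {x} = ENNReal.ofReal (1 / 10) := by
  simp [m0, cardG, ← mul_assoc, ENNReal.mul_inv_cancel, ENNReal.ofReal_inv_of_pos]

lemma sum_μ : ENNReal.ofReal (1 / 2) ≤ ∑ x, μ0 {x + five} * μ0 {x} := by
  have h : (0 : G) ≠ five := by decide
  have h' : five + five = 0 := by decide
  refine le_trans ?_ (Finset.sum_le_sum_of_subset (Finset.subset_univ {0, five}))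
  rw [Finset.sum_pair h, h', zero_add]
  simp [μ0, h, h.symm, ← mul_add, ENNReal.inv_two_add_inv_two, ENNReal.ofReal_inv_of_pos]

theorem result : ∃ (S : Type) (_ : MetricSpace S) (_ : AddGroup S) (_ : MeasurableSpace S),
    CompactSpace S ∧ IsTopologicalAddGroup S ∧ BorelSpace S ∧
    (∀ g x y : S, dist (g + x) (g + y) = dist x y) ∧
    ∃ (m μ : Measure S) (lam v : ℝ), IsProbabilityMeasure m ∧ m.IsAddLeftInvariant ∧
      IsProbabilityMeasure μ ∧ 0 < lam ∧ 0 < v ∧ meanCover μ lam v < meanCover m lam v := by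
  refine ⟨G, inferInstance, inferInstance, inferInstance, inferInstance,
    { continuous_add := continuous_of_discreteTopology
      continuous_neg := continuous_of_discreteTopology }, ⟨borel_eq_top_of_discrete.symm⟩,
    fun g x y => congrArg Nat.cast (d4 g x y), m0, μ0, 1, 400, inferInstance,
    by unfold m0; infer_instance, inferInstance, one_pos, by norm_num, ?_⟩
  have h1 := up μ0
  have h2 := lo m0
  have b1 : ∀ c : ℝ, 0 ≤ c → expMeasure 1 (Iic c) ≤ ENNReal.ofReal c := fun c hc => by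
    rw [exp_Iic hc]; exact ENNReal.ofReal_le_ofReal (by linarith [Real.add_one_le_exp (-c)])
  have b2 : ENNReal.ofReal (1 / 801) ≤ expMeasure 1 (Iic (1 / 800)) := by
    rw [exp_Iic (by norm_num)]
    refine ENNReal.ofReal_le_ofReal ?_
    have := Real.add_one_le_exp (1 / 800 : ℝ)
    have h3 : Real.exp (-(1 / 800)) ≤ 800 / 801 := by
      rw [Real.exp_neg, inv_le_comm₀ (Real.exp_pos _) (by norm_num)]; linarith
    linarith
  rw [PE] at h1 h2
  rw [PB, sum_m] at h2
  have h3 : meanCover μ0 1 400 + ENNReal.ofReal (1 / 800 * (1 / 801 * (1 / 2))) ≤ F := by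
    refine le_trans ?_ h1
    rw [ENNReal.ofReal_mul (by norm_num), ENNReal.ofReal_mul (by norm_num)]
    gcongr
    exact sum_μ
  have h4 : F ≤ meanCover m0 1 400 + ENNReal.ofReal (1 / 400 * (1 / 400 * (1 / 10)) +
      1 / 200 * (1 / 200 * (1 / 200))) := by
    refine h2.trans ?_
    rw [ENNReal.ofReal_add (by norm_num) (by norm_num), ← add_assoc]
    simp only [ENNReal.ofReal_mul (show (0 : ℝ) ≤ 1 / 400 by norm_num),
      ENNReal.ofReal_mul (show (0 : ℝ) ≤ 1 / 200 by norm_num)]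
    gcongr <;> exact b1 _ (by norm_num)
  by_contra hc
  have h5 := h3.trans (h4.trans (add_le_add_left (not_lt.1 hc) _))
  rw [ENNReal.add_le_add_iff_left (ne_top_of_le_ne_top F_ne (le_self_add.trans h3)),
    ENNReal.ofReal_le_ofReal_iff (by norm_num)] at h5
  norm_num at h5

end Pool.Agent.Results.MP_b215e8_pr.No
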